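import Pool.Agent.Helper34.ST.Basic

/-!
# PH0: phase without switching
-/

set_option autoImplicit false

namespace Pool.Agent.Helper34.ST

theorem st_PH0 : ST_PH0 := by
  intro ι r z κ ℓ J hNC σ a Q u hu
  induction Q with
  | zero =>
    intro _
    refine ⟨fun t => u (ht σ t), walk_dir hu σ a _, rfl, rfl, ?_⟩
    unfold cost
    simp
  | succ Q ih =>
    intro hR
    obtain ⟨W1, hW1, hs1, he1, hc1⟩ := ih (fun q hq => hR q (by omega))
    have hb : a + Q * ℓ + ℓ = a + (Q + 1) * ℓ := by ring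
    have hRQ : Rg σ (a + Q * ℓ) (a + Q * ℓ + ℓ) J := by
      rw [hb]
      exact hR Q (by omega)
    obtain ⟨W2, hW2, hs2, he2, hc2⟩ := hNC σ u (a + Q * ℓ) hu hRQ
    obtain ⟨W, hW, h1, h2⟩ := cat (Nat.le_add_right a (Q * ℓ)) (Nat.le_add_right (a + Q * ℓ) ℓ)
      hW1 hW2 (by rw [he1, hs2])
    rw [hb] at hW he2 hc2 hW2
    refine ⟨W, hW, ?_, ?_, ?_⟩
    · rw [h1 a (Nat.le_add_right a (Q * ℓ)), hs1]
    · rw [h2 _ (by rw [← hb]; exact Nat.le_add_right _ _), he2]
    · have h3 := cat_cost (z := z) (c := a + (Q + 1) * ℓ) (Nat.le_add_right a (Q * ℓ))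
        (by rw [← hb]; exact Nat.le_add_right _ _) h1 h2
      rw [h3]
      push_cast
      linarith

end Pool.Agent.Helper34.ST
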